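import Mathlib

/-!
# MP_a2bf4b_an: a bisymmetric operation which is reflexive exactly on a proper subinterval

Write a real number as `x = n + u` with `n ∈ ℤ` and `u ∈ (0, 1]` for `n > 0`, `u ∈ [0, 1]` for
`n = 0`, `u ∈ [0, 1)` for `n < 0`. The operation adds the integers `n` and averages the `u`.
-/

open Set

namespace Pool.Agent.Results.MP_a2bf4b_an.PartlyReflexive

/-- `F(F(x,y),F(u,v)) = F(F(x,u),F(y,v))` -/
def Bisymmetric {I : Set ℝ} (F : I → I → I) : Prop :=
  ∀ x y u v : I, F (F x y) (F u v) = F (F x u) (F y v)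

/-- `F(x,y) = F(y,x)` -/
def Symmetric {I : Set ℝ} (F : I → I → I) : Prop := ∀ x y : I, F x y = F y x

/-- strictly increasing in each variable -/
def PartiallyStrictlyIncreasing {I : Set ℝ} (F : I → I → I) : Prop :=
  (∀ y : I, StrictMono fun x => F x y) ∧ ∀ x : I, StrictMono fun y => F x y

/-- a nondegenerate interval -/
def IsInterval (I : Set ℝ) : Prop := I.OrdConnected ∧ I.Nontrivial

/-- the integer part adapted to the interval `[0,1]` -/
noncomputable def nn (x : ℝ) : ℤ := max (⌈x⌉ - 1) 0 + min ⌊x⌋ 0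

/-- the remaining part -/
noncomputable def uu (x : ℝ) : ℝ := x - nn x

/-- the pairs `(n, u)` that represent real numbers -/
def Good (n : ℤ) (u : ℝ) : Prop :=
  0 ≤ u ∧ u ≤ 1 ∧ (0 < n → 0 < u) ∧ (n < 0 → u < 1)

lemma good (x : ℝ) : Good (nn x) (uu x) := by
  have h1 := Int.le_ceil x
  have h2 := Int.ceil_lt_add_one x
  have h3 := Int.floor_le x
  have h4 := Int.lt_floor_add_one x
  rcases lt_trichotomy x 0 with hx | hx | hx
  · have hf : ⌊x⌋ < 0 := Int.floor_lt.mpr (by exact_mod_cast hx)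
    have hc : ⌈x⌉ ≤ 0 := Int.ceil_le.mpr (by exact_mod_cast hx.le)
    have hn : nn x = ⌊x⌋ := by
      unfold nn
      rw [max_eq_right (by omega), min_eq_left (by omega), zero_add]
    unfold Good uu
    rw [hn]
    exact ⟨by linarith, by linarith, fun h => absurd h (by omega), fun _ => by linarith⟩
  · subst hx
    have hn : nn 0 = 0 := by simp [nn]
    unfold Good uu
    rw [hn]
    simp
  · have hf : 0 ≤ ⌊x⌋ := Int.floor_nonneg.mpr hx.le
    have hc : 0 < ⌈x⌉ := Int.ceil_pos.mpr hx
    have hn : nn x = ⌈x⌉ - 1 := by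
      unfold nn
      rw [max_eq_left (by omega), min_eq_right (by omega), add_zero]
    unfold Good uu
    rw [hn]
    push_cast
    exact ⟨by linarith, by linarith, fun _ => by linarith, fun h => absurd h (by omega)⟩

lemma nn_add {n : ℤ} {u : ℝ} (h : Good n u) : nn (n + u) = n := by
  obtain ⟨h0, h1, h2, h3⟩ := h
  rcases lt_trichotomy n 0 with hn | hn | hn
  · have hu := h3 hn
    have hf : ⌊(n : ℝ) + u⌋ = n := by
      rw [Int.floor_eq_iff]
      constructor <;> linarith
    have hc : ⌈(n : ℝ) + u⌉ ≤ 0 := by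
      refine Int.ceil_le.mpr ?_
      have : (n : ℝ) + 1 ≤ 0 := by exact_mod_cast hn
      push_cast
      linarith
    unfold nn
    rw [hf, max_eq_right (by omega), min_eq_left (by omega), zero_add]
  · subst hn
    have hc : ⌈((0 : ℤ) : ℝ) + u⌉ ≤ 1 := Int.ceil_le.mpr (by push_cast; linarith)
    have hf : 0 ≤ ⌊((0 : ℤ) : ℝ) + u⌋ := Int.floor_nonneg.mpr (by push_cast; linarith)
    unfold nn
    rw [max_eq_right (by omega), min_eq_right (by omega), zero_add]
  · have hu := h2 hn
    have hc : ⌈(n : ℝ) + u⌉ = n + 1 := by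
      rw [Int.ceil_eq_iff]
      push_cast
      constructor <;> linarith
    have hf : 0 ≤ ⌊(n : ℝ) + u⌋ := by
      refine Int.floor_nonneg.mpr ?_
      have : (0 : ℝ) ≤ n := by exact_mod_cast hn.le
      linarith
    unfold nn
    rw [hc, max_eq_left (by omega), min_eq_right (by omega)]
    ring

lemma uu_add {n : ℤ} {u : ℝ} (h : Good n u) : uu (n + u) = u := by
  unfold uu
  rw [nn_add h]
  ring

lemma nn_add_uu (x : ℝ) : (nn x : ℝ) + uu x = x := by unfold uu; ring

lemma good_avg {n m : ℤ} {u v : ℝ} (h : Good n u) (h' : Good m v) :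
    Good (n + m) ((u + v) / 2) := by
  obtain ⟨a0, a1, a2, a3⟩ := h
  obtain ⟨b0, b1, b2, b3⟩ := h'
  refine ⟨by linarith, by linarith, fun hp => ?_, fun hp => ?_⟩
  · rcases (show 0 < n ∨ 0 < m by omega) with h | h
    · linarith [a2 h]
    · linarith [b2 h]
  · rcases (show n < 0 ∨ m < 0 by omega) with h | h
    · linarith [a3 h]
    · linarith [b3 h]

/-- the operation on the real line -/
noncomputable def op (x y : ℝ) : ℝ := ((nn x + nn y : ℤ) : ℝ) + (uu x + uu y) / 2

lemma nn_op (x y : ℝ) : nn (op x y) = nn x + nn y := nn_add (good_avg (good x) (good y))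

lemma uu_op (x y : ℝ) : uu (op x y) = (uu x + uu y) / 2 := uu_add (good_avg (good x) (good y))

lemma op_comm (x y : ℝ) : op x y = op y x := by
  unfold op
  rw [add_comm (nn x), add_comm (uu x)]

lemma op_bisymm (x y u v : ℝ) : op (op x y) (op u v) = op (op x u) (op y v) := by
  have e : ∀ a b c d : ℝ, op (op a b) (op c d) =
      ((nn a + nn b + (nn c + nn d) : ℤ) : ℝ) + ((uu a + uu b) / 2 + (uu c + uu d) / 2) / 2 := by
    intro a b c d
    conv_lhs => unfold op
    have h1 := nn_op a b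
    have h2 := nn_op c d
    have h3 := uu_op a b
    have h4 := uu_op c d
    unfold op at h1 h2 h3 h4
    rw [h1, h2, h3, h4]
  rw [e, e]
  push_cast
  ring

/-- the order is the lexicographic order of the pairs `(n, u)` -/
lemma lex {x y : ℝ} (h : x < y) : nn x < nn y ∨ (nn x = nn y ∧ uu x < uu y) := by
  have hx := good x
  have hy := good y
  have ex := nn_add_uu x
  have ey := nn_add_uu y
  rcases lt_trichotomy (nn x) (nn y) with h1 | h1 | h1
  · exact Or.inl h1
  · refine Or.inr ⟨h1, ?_⟩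
    have : (nn x : ℝ) = nn y := by exact_mod_cast h1
    linarith
  · exfalso
    have h2 : (nn y : ℝ) + 1 ≤ nn x := by exact_mod_cast h1
    linarith [hx.1, hy.2.1]

lemma lt_of_lex {n m : ℤ} {u v : ℝ} (hu : Good n u) (hv : Good m v)
    (h : n < m ∨ (n = m ∧ u < v)) : (n : ℝ) + u < m + v := by
  rcases h with h | ⟨h, h'⟩
  · have h2 : (n : ℝ) + 1 ≤ m := by exact_mod_cast h
    rcases lt_or_ge 0 m with hm | hm
    · linarith [hu.2.1, hv.2.2.1 hm]
    · have hn : n < 0 := by omega
      linarith [hu.2.2.2 hn, hv.1]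
  · subst h
    linarith

lemma op_strictMono (y : ℝ) : StrictMono fun x => op x y := by
  intro a b hab
  refine lt_of_lex (good_avg (good a) (good y)) (good_avg (good b) (good y)) ?_
  rcases lex hab with h | ⟨h, h'⟩
  · exact Or.inl (by omega)
  · exact Or.inr ⟨by omega, by linarith⟩

lemma op_self_of_mem {x : ℝ} (h0 : 0 ≤ x) (h1 : x ≤ 1) : op x x = x := by
  have hg : Good 0 x := ⟨h0, h1, fun h => absurd h (lt_irrefl _), fun h => absurd h (lt_irrefl _)⟩
  have hn : nn x = 0 := by
    have := nn_add hg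
    simpa using this
  have hu : uu x = x := by unfold uu; rw [hn]; simp
  unfold op
  rw [hn, hu]
  push_cast
  ring

lemma op_two : op 2 2 ≠ 2 := by
  have hg : Good 1 (1 : ℝ) := ⟨by norm_num, le_refl _, fun _ => one_pos, fun h => by omega⟩
  have hn : nn 2 = 1 := by
    have := nn_add hg
    norm_num at this
    exact this
  have hu : uu 2 = 1 := by unfold uu; rw [hn]; norm_num
  unfold op
  rw [hn, hu]
  norm_num

lemma op_nonneg {x y : ℝ} (hx : 0 ≤ x) (hy : 0 ≤ y) : 0 ≤ op x y := by
  have key : ∀ z : ℝ, 0 ≤ z → 0 ≤ nn z := by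
    intro z hz
    have : 0 ≤ ⌊z⌋ := Int.floor_nonneg.mpr hz
    unfold nn
    rw [min_eq_right this, add_zero]
    exact le_max_right _ _
  have h1 : (0 : ℝ) ≤ nn x := by exact_mod_cast key x hx
  have h2 : (0 : ℝ) ≤ nn y := by exact_mod_cast key y hy
  unfold op
  push_cast
  linarith [(good x).1, (good y).1]

/-- The interval `I` carries an operation as asked for in Q1. -/
def Answer (I : Set ℝ) : Prop :=
  ∃ F : I → I → I, Bisymmetric F ∧ Symmetric F ∧ PartiallyStrictlyIncreasing F ∧
    ∃ J : Set ℝ, IsInterval J ∧ J ⊂ I ∧ (∀ x : I, (x : ℝ) ∈ J → F x x = x) ∧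
      ∃ x₀ : I, F x₀ x₀ ≠ x₀

lemma answer_of {I : Set ℝ} (hI : ∀ x ∈ I, ∀ y ∈ I, op x y ∈ I) (h01 : Icc 0 1 ⊆ I)
    (h2 : (2 : ℝ) ∈ I) : Answer I := by
  refine ⟨fun x y => ⟨op x y, hI x x.2 y y.2⟩, fun x y u v => ?_, fun x y => ?_,
    ⟨fun y a b hab => ?_, fun x a b hab => ?_⟩, Icc 0 1, ⟨ordConnected_Icc, ?_⟩,
    ⟨h01, fun h => ?_⟩, fun x hx => ?_, ⟨2, h2⟩, fun h => ?_⟩
  · exact Subtype.ext (op_bisymm _ _ _ _)
  · exact Subtype.ext (op_comm _ _)
  · exact op_strictMono y hab
  · show op x a < op x b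
    rw [op_comm x a, op_comm x b]
    exact op_strictMono x hab
  · exact ⟨0, by simp, 1, by simp, by norm_num⟩
  · have := (h h2).2
    norm_num at this
  · exact Subtype.ext (op_self_of_mem hx.1 hx.2)
  · exact op_two (congrArg Subtype.val h)

/-- **Q1 of MP_a2bf4b_an has the answer yes.** On the interval `I = [0, ∞)`, and also on the open
interval `I = ℝ`, there is a bisymmetric, symmetric, partially strictly increasing operation which
is reflexive on a proper subinterval (here `[0, 1]`) but not everywhere. -/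
theorem result : (IsInterval (Ici 0) ∧ Answer (Ici 0)) ∧ (IsInterval univ ∧ Answer univ) := by
  refine ⟨⟨⟨ordConnected_Ici, ⟨0, by simp, 1, by simp, by norm_num⟩⟩, ?_⟩,
    ⟨⟨ordConnected_univ, ⟨0, by simp, 1, by simp, by norm_num⟩⟩, ?_⟩⟩
  · exact answer_of (fun x hx y hy => op_nonneg hx hy) (fun x hx => hx.1) (by simp)
  · exact answer_of (fun _ _ _ _ => mem_univ _) (subset_univ _) (mem_univ _)

end Pool.Agent.Results.MP_a2bf4b_an.PartlyReflexive
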